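import Pool.Agent.Helper93_ABCT.StmtI

/-!
# POLE: the poles of the logarithmic form are toric (MP_a17fcb_ag)
-/

set_option autoImplicit false

open MvPolynomial

namespace PosGeom.H82

/-! ## Unimodular matrices -/

theorem exists_unimod (n : ℕ) (mu : Fin (n + 1) → ℤ) (h : mu ≠ 0) :
    ∃ (A : Matrix (Fin (n + 1)) (Fin (n + 1)) ℤ) (g : ℕ), (A.det = 1 ∨ A.det = -1) ∧ 0 < g ∧
      ∑ j, A 0 j * mu j = g ∧ ∀ k : Fin n, ∑ j, A k.succ j * mu j = 0 := by
  classical
  let φ : (Fin (n + 1) → ℤ) →ₗ[ℤ] ℤ :=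
    { toFun := fun v => ∑ j, v j * mu j
      map_add' := fun v w => by simp [add_mul, Finset.sum_add_distrib]
      map_smul' := fun c v => by simp [Finset.mul_sum, mul_assoc] }
  have hφ : ∀ v, φ v = ∑ j, v j * mu j := fun v => rfl
  obtain ⟨m, b⟩ := Submodule.basisOfPid (Pi.basisFun ℤ (Fin (n + 1))) (LinearMap.ker φ)
  obtain ⟨g0, hg0⟩ := (IsPrincipalIdealRing.principal (LinearMap.range φ : Ideal ℤ)).principal
  have hmem : ∀ a : ℤ, a ∈ LinearMap.range φ ↔ ∃ c, a = c * g0 := by
    intro a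
    rw [hg0, Submodule.mem_span_singleton]
    simp [eq_comm]
  have hg0ne : g0 ≠ 0 := by
    intro h0
    apply h
    funext j
    have h1 : φ (Pi.single j 1) ∈ LinearMap.range φ := ⟨_, rfl⟩
    rw [hmem] at h1
    obtain ⟨c, hc⟩ := h1
    rw [h0, mul_zero, hφ] at hc
    simpa [Pi.single_apply] using hc
  obtain ⟨y0, hy0⟩ : g0 ∈ LinearMap.range φ := (hmem g0).2 ⟨1, by simp⟩
  obtain ⟨y, g, hg, hy, hdiv⟩ : ∃ (y : Fin (n + 1) → ℤ) (g : ℕ), 0 < g ∧ φ y = g ∧
      ∀ a ∈ LinearMap.range φ, ∃ c : ℤ, a = c * g := by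
    rcases lt_or_gt_of_ne hg0ne with hneg | hpos
    · refine ⟨-y0, g0.natAbs, Int.natAbs_pos.2 hg0ne, ?_, ?_⟩
      · rw [map_neg, hy0]; omega
      · intro a ha
        obtain ⟨c, hc⟩ := (hmem a).1 ha
        refine ⟨-c, ?_⟩
        have : ((g0.natAbs : ℕ) : ℤ) = -g0 := by omega
        rw [this, hc]; ring
    · refine ⟨y0, g0.natAbs, Int.natAbs_pos.2 hg0ne, ?_, ?_⟩
      · rw [hy0]; omega
      · intro a ha
        obtain ⟨c, hc⟩ := (hmem a).1 ha
        refine ⟨c, ?_⟩
        have : ((g0.natAbs : ℕ) : ℤ) = g0 := by omega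
        rw [this, hc]
  have hgz : (g : ℤ) ≠ 0 := by exact_mod_cast hg.ne'
  have hli : ∀ (c : ℤ), ∀ x ∈ LinearMap.ker φ, c • y + x = 0 → c = 0 := by
    intro c x hx hcx
    have h1 := congrArg φ hcx
    rw [map_add, map_smul, LinearMap.mem_ker.1 hx, hy, map_zero, add_zero, smul_eq_mul] at h1
    exact (mul_eq_zero.1 h1).resolve_right hgz
  have hsp : ∀ z : Fin (n + 1) → ℤ, ∃ c : ℤ, z + c • y ∈ LinearMap.ker φ := by
    intro z
    obtain ⟨c, hc⟩ := hdiv (φ z) ⟨z, rfl⟩
    refine ⟨-c, ?_⟩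
    rw [LinearMap.mem_ker, map_add, map_smul, hy, hc, smul_eq_mul]
    ring
  let B := Module.Basis.mkFinCons y b hli hsp
  have hBcoe : (B : Fin (m + 1) → Fin (n + 1) → ℤ) = Fin.cons y ((↑) ∘ b) :=
    Module.Basis.coe_mkFinCons _ _ _ _
  have hcard : m = n := by
    have h1 := Module.finrank_eq_card_basis B
    rw [Module.finrank_fin_fun, Fintype.card_fin] at h1
    omega
  subst hcard
  refine ⟨Matrix.of fun i j => B i j, g, ?_, hg, ?_, ?_⟩
  · have h1 := (Pi.basisFun ℤ (Fin (m + 1))).isUnit_det B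
    rw [Module.Basis.det_apply] at h1
    have h2 : (Pi.basisFun ℤ (Fin (m + 1))).toMatrix B =
        (Matrix.of fun i j => B i j : Matrix (Fin (m + 1)) (Fin (m + 1)) ℤ).transpose := by
      ext i j
      simp [Module.Basis.toMatrix_apply]
    rw [h2, Matrix.det_transpose] at h1
    exact Int.isUnit_iff.1 h1
  · have : B 0 = y := by rw [hBcoe]; rfl
    simp only [Matrix.of_apply, this]
    exact hy
  · intro k
    have : B k.succ = b k := by rw [hBcoe]; rfl
    simp only [Matrix.of_apply, this]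
    exact LinearMap.mem_ker.1 (b k).2

/-! ## Regular forms -/

section

variable {K : Type} [Field K] [Algebra ℂ K] {d : ℕ} {O : ValuationSubring K}

theorem reg_dW {g : Fin d → K} (hg : ∀ i, g i ∈ O) : RegularAt O (dW g) :=
  ⟨1, fun _ => 1, fun _ => g, fun _ => O.one_mem, fun _ => hg, by simp⟩

theorem reg_add {ω ω' : Form K d} (h : RegularAt O ω) (h' : RegularAt O ω') :
    RegularAt O (ω + ω') := by
  obtain ⟨m, f, g, hf, hg, rfl⟩ := h
  obtain ⟨m', f', g', hf', hg', rfl⟩ := h'
  refine ⟨m + m', Fin.append f f', Fin.append g g', ?_, ?_, ?_⟩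
  · intro k
    refine Fin.addCases (fun i => ?_) (fun i => ?_) k
    · rw [Fin.append_left]; exact hf i
    · rw [Fin.append_right]; exact hf' i
  · intro k
    refine Fin.addCases (fun i => ?_) (fun i => ?_) k
    · rw [Fin.append_left]; exact hg i
    · rw [Fin.append_right]; exact hg' i
  · rw [Fin.sum_univ_add]
    simp only [Fin.append_left, Fin.append_right]

theorem reg_smul {ω : Form K d} (h : RegularAt O ω) {c : K} (hc : c ∈ O) :
    RegularAt O (c • ω) := by
  obtain ⟨m, f, g, hf, hg, rfl⟩ := h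
  refine ⟨m, fun k => c * f k, g, fun k => O.mul_mem _ _ hc (hf k), hg, ?_⟩
  rw [Finset.smul_sum]
  exact Finset.sum_congr rfl fun k _ => smul_smul _ _ _

theorem dW_apply (g : Fin d → K) (D : Fin d → Derivation ℂ K K) :
    dW g D = (Matrix.of fun i j => D i (g j)).det := rfl

/-- chain rule -/
theorem der_aeval {n : ℕ} (D : Derivation ℂ K K) (x : Fin n → K) (P : MvPolynomial (Fin n) ℂ) :
    D (aeval x P) = ∑ l, aeval x (pderiv l P) * D (x l) := by
  induction P using MvPolynomial.induction_on with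
  | C a => simp
  | add p q hp hq => simp [hp, hq, add_mul, Finset.sum_add_distrib]
  | mul_X p i hp =>
    rw [map_mul, aeval_X, Derivation.leibniz, hp, smul_eq_mul, smul_eq_mul, Finset.mul_sum]
    have h1 : ∀ l, aeval x (pderiv l (p * X i)) * D (x l) =
        x i * (aeval x (pderiv l p) * D (x l)) +
          (if i = l then aeval x p * D (x i) else 0) := by
      intro l
      rw [pderiv_mul, map_add, map_mul, map_mul, aeval_X]
      by_cases h : i = l
      · subst h
        rw [pderiv_X_self, map_one, if_pos rfl]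
        ring
      · rw [pderiv_X_of_ne h, map_zero, if_neg h]
        ring
    rw [Finset.sum_congr rfl fun l _ => h1 l, Finset.sum_add_distrib, Finset.sum_ite_eq]
    simp only [Finset.mem_univ, if_true]
    ring

theorem dW_poly (Y : Fin (d + 1) → K) (k : Fin d) (P : MvPolynomial (Fin d) ℂ) :
    dW (Function.update Y k.succ (aeval (fun l : Fin d => Y l.succ) P)) =
      aeval (fun l : Fin d => Y l.succ) (pderiv k P) • dW Y := by
  ext D
  rw [AlternatingMap.smul_apply, dW_apply, dW_apply, smul_eq_mul]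
  have h1 : (Matrix.of fun i j => D i (Function.update Y k.succ
      (aeval (fun l : Fin d => Y l.succ) P) j)) =
      (Matrix.of fun i j => D i (Y j)).updateCol k.succ fun i =>
        ∑ j : Fin (d + 1), (Fin.cons 0 (fun l : Fin d => aeval (fun l : Fin d => Y l.succ)
          (pderiv l P)) : Fin (d + 1) → K) j • (Matrix.of fun i j => D i (Y j)) i j := by
    ext i j
    by_cases h : j = k.succ
    · subst h
      rw [Matrix.updateCol_self, Matrix.of_apply, Function.update_self, der_aeval,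
        Fin.sum_univ_succ]
      simp
    · rw [Matrix.updateCol_ne h, Matrix.of_apply, Function.update_of_ne h, Matrix.of_apply]
  rw [h1, Matrix.det_updateCol_sum]
  simp

/-- the determinant with two columns replaced -/
noncomputable def F2 (M : Matrix (Fin (d + 1)) (Fin (d + 1)) K) (k : Fin d)
    (u v : Fin (d + 1) → K) : K := ((M.updateCol 0 u).updateCol k.succ v).det

theorem F2_add_right (M : Matrix (Fin (d + 1)) (Fin (d + 1)) K) (k : Fin d)
    (u v v' : Fin (d + 1) → K) : F2 M k u (v + v') = F2 M k u v + F2 M k u v' :=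
  Matrix.det_updateCol_add _ _ _ _

theorem F2_smul_right (M : Matrix (Fin (d + 1)) (Fin (d + 1)) K) (k : Fin d)
    (u v : Fin (d + 1) → K) (c : K) : F2 M k u (c • v) = c * F2 M k u v :=
  Matrix.det_updateCol_smul _ _ _ _

theorem F2_swap (M : Matrix (Fin (d + 1)) (Fin (d + 1)) K) (k : Fin d)
    (u v : Fin (d + 1) → K) : F2 M k u v = ((M.updateCol k.succ v).updateCol 0 u).det := by
  rw [F2, Matrix.updateCol_comm _ (Fin.succ_ne_zero k).symm]

theorem F2_add_left (M : Matrix (Fin (d + 1)) (Fin (d + 1)) K) (k : Fin d)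
    (u u' v : Fin (d + 1) → K) : F2 M k (u + u') v = F2 M k u v + F2 M k u' v := by
  rw [F2_swap, F2_swap, F2_swap, Matrix.det_updateCol_add]

theorem F2_smul_left (M : Matrix (Fin (d + 1)) (Fin (d + 1)) K) (k : Fin d)
    (u v : Fin (d + 1) → K) (c : K) : F2 M k (c • u) v = c * F2 M k u v := by
  rw [F2_swap, F2_swap, Matrix.det_updateCol_smul]

theorem F2_self (M : Matrix (Fin (d + 1)) (Fin (d + 1)) K) (k : Fin d)
    (u : Fin (d + 1) → K) : F2 M k u u = 0 := by
  apply Matrix.det_zero_of_column_eq (Fin.succ_ne_zero k)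
  intro i
  rw [Matrix.updateCol_self, Matrix.updateCol_ne (Fin.succ_ne_zero k).symm, Matrix.updateCol_self]

theorem dW_two (Y : Fin (d + 1) → K) (k : Fin d) (a b : K) (D : Fin (d + 1) → Derivation ℂ K K) :
    dW (Function.update (Function.update Y 0 a) k.succ b) D =
      F2 (Matrix.of fun i j => D i (Y j)) k (fun i => D i a) (fun i => D i b) := by
  rw [dW_apply, F2]
  congr 1
  ext i j
  by_cases h : j = k.succ
  · subst h
    rw [Matrix.updateCol_self, Matrix.of_apply, Function.update_self]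
  · rw [Matrix.updateCol_ne h, Matrix.of_apply, Function.update_of_ne h]
    by_cases h0 : j = 0
    · subst h0
      rw [Matrix.updateCol_self, Function.update_self]
    · rw [Matrix.updateCol_ne h0, Function.update_of_ne h0, Matrix.of_apply]

theorem key (Y : Fin (d + 1) → K) (k : Fin d) (t ε η q : K) (g b : ℕ) (ht : t ≠ 0) (hε : ε ≠ 0)
    (hY : Y 0 = t ^ (g + 1) * ε) (hq : q = t ^ (b + 1) * η) :
    (Y 0)⁻¹ • dW (Function.update Y k.succ q) =
      (((g + 1 : ℕ) : K) * t ^ b) • dW (Function.update (Function.update Y 0 t) k.succ η) +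
      (((b + 1 : ℕ) : K) * t ^ b * η * ε⁻¹) •
        dW (Function.update (Function.update Y 0 ε) k.succ t) +
      (t ^ (b + 1) * ε⁻¹) • dW (Function.update (Function.update Y 0 ε) k.succ η) := by
  ext D
  have h0 : Function.update Y k.succ q =
      Function.update (Function.update Y 0 (Y 0)) k.succ q := by
    rw [Function.update_eq_self]
  rw [h0]
  simp only [AlternatingMap.add_apply, AlternatingMap.smul_apply, dW_two, smul_eq_mul]
  set M : Matrix (Fin (d + 1)) (Fin (d + 1)) K := Matrix.of fun i j => D i (Y j)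
  have hu : (fun i => D i (Y 0)) = ((((g + 1 : ℕ) : K) * t ^ g * ε) • fun i => D i t) +
      (t ^ (g + 1)) • fun i => D i ε := by
    funext i
    rw [hY, Derivation.leibniz, Derivation.leibniz_pow]
    simp only [Pi.add_apply, Pi.smul_apply, smul_eq_mul, nsmul_eq_mul, Nat.add_sub_cancel]
    ring
  have hv : (fun i => D i q) = ((((b + 1 : ℕ) : K) * t ^ b * η) • fun i => D i t) +
      (t ^ (b + 1)) • fun i => D i η := by
    funext i
    rw [hq, Derivation.leibniz, Derivation.leibniz_pow]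
    simp only [Pi.add_apply, Pi.smul_apply, smul_eq_mul, nsmul_eq_mul, Nat.add_sub_cancel]
    ring
  rw [hu, hv]
  simp only [F2_add_left, F2_add_right, F2_smul_left, F2_smul_right, F2_self]
  rw [hY]
  field_simp
  ring

end

/-! ## Partial derivatives of minimal polynomials -/

theorem totalDegree_pderiv_lt {s : ℕ} (P : MvPolynomial (Fin s) ℂ) (i : Fin s)
    (h : P.totalDegree ≠ 0) : (pderiv i P).totalDegree < P.totalDegree := by
  rw [totalDegree, Finset.sup_lt_iff (Nat.pos_of_ne_zero h)]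
  intro m hm
  rw [mem_support_iff, coeff_pderiv] at hm
  have h1 : coeff (m + Finsupp.single i 1) P ≠ 0 := left_ne_zero_of_mul hm
  have h2 := le_totalDegree (mem_support_iff.2 h1)
  rw [Finsupp.sum_add_index' (fun _ => rfl) (fun _ _ _ => rfl), Finsupp.sum_single_index rfl] at h2
  change (m.sum fun _ e => e) < _
  omega

theorem exists_pderiv_ne {s : ℕ} (P : MvPolynomial (Fin s) ℂ) (h : P.totalDegree ≠ 0) :
    ∃ i, pderiv i P ≠ 0 := by
  by_contra hcon
  push Not at hcon
  apply h
  rw [totalDegree_eq_zero_iff_eq_C]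
  ext m
  rw [coeff_C]
  split_ifs with h0
  · rw [h0]
  · obtain ⟨i, hi⟩ : ∃ i, m i ≠ 0 := by
      by_contra hc
      push Not at hc
      exact h0 (Finsupp.ext fun i => by simp [hc i]).symm
    have h1 := congrArg (coeff (m - Finsupp.single i 1)) (hcon i)
    have h2 : m - Finsupp.single i 1 + Finsupp.single i 1 = m := by
      apply tsub_add_cancel_of_le
      rw [Finsupp.single_le_iff]
      omega
    rw [coeff_pderiv, coeff_zero, h2] at h1
    refine (mul_eq_zero.1 h1).resolve_right ?_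
    exact Nat.cast_add_one_ne_zero _

theorem zpow_sum₀ {K : Type} [Field K] {t : K} (ht : t ≠ 0) {ι : Type} (s : Finset ι) (f : ι → ℤ) :
    t ^ (∑ j ∈ s, f j) = ∏ j ∈ s, t ^ f j := by
  classical
  induction s using Finset.induction_on with
  | empty => simp
  | insert a s ha ih => rw [Finset.sum_insert ha, Finset.prod_insert ha, zpow_add₀ ht, ih]

/-- POLE -/
theorem pole (hF : FuniStmt) : PoleStmt := by
  classical
  intro K _ _ d y hy O hdvr hC
  obtain ⟨ϖ, hϖ⟩ := IsDiscreteValuationRing.exists_irreducible O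
  set t : K := ϖ.1 with ht
  have ht0 : t ≠ 0 := by
    rw [ht]
    exact fun h => hϖ.ne_zero (Subtype.ext h)
  have htO : t ∈ O := ϖ.2
  have htv : O.valuation t < 1 := by
    rw [ht, ← O.valuation_lt_one_iff, IsLocalRing.mem_maximalIdeal, mem_nonunits_iff]
    exact hϖ.not_isUnit
  have hunit : ∀ x : K, O.valuation x = 1 → x ∈ O ∧ x⁻¹ ∈ O ∧ x ≠ 0 := by
    intro x hx
    refine ⟨(O.valuation_le_one_iff x).1 hx.le, (O.valuation_le_one_iff _).1 ?_, ?_⟩
    · rw [map_inv₀, hx, inv_one]
    · rintro rfl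
      rw [map_zero] at hx
      exact zero_ne_one hx
  have hnat : ∀ x ∈ O, x ≠ 0 → ∃ (n : ℕ) (u : K), O.valuation u = 1 ∧ x = t ^ n * u := by
    intro x hx hx0
    obtain ⟨n, u, hu⟩ := IsDiscreteValuationRing.eq_unit_mul_pow_irreducible
      (x := (⟨x, hx⟩ : O)) (fun h => hx0 (congrArg Subtype.val h)) hϖ
    refine ⟨n, (u : O), (O.valuation_eq_one_iff _).1 u.isUnit, ?_⟩
    have := congrArg Subtype.val hu
    rw [show (x : K) = ((⟨x, hx⟩ : O) : O).1 from rfl, this]
    simp [mul_comm, ht]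
  have hint : ∀ x : K, x ≠ 0 → ∃ (n : ℤ) (u : K), O.valuation u = 1 ∧ x = t ^ n * u := by
    intro x hx0
    rcases O.mem_or_inv_mem x with hx | hx
    · obtain ⟨n, u, h1, h2⟩ := hnat x hx hx0
      exact ⟨n, u, h1, by rw [h2, zpow_natCast]⟩
    · obtain ⟨n, u, h1, h2⟩ := hnat x⁻¹ hx (inv_ne_zero hx0)
      refine ⟨-n, u⁻¹, by rw [map_inv₀, h1, inv_one], ?_⟩
      rw [← inv_inv x, h2, mul_inv, zpow_neg, zpow_natCast]
  have hyne : ∀ j, y j ≠ 0 := fun j => hy.ind.ne_zero j
  choose mu u hu hyt using fun j => hint (y j) (hyne j)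
  by_cases hmu : mu = 0
  · left
    have hyO : ∀ j, O.valuation (y j) = 1 := by
      intro j
      rw [hyt j, hmu, Pi.zero_apply, zpow_zero, one_mul, hu j]
    unfold dL
    refine reg_smul (reg_dW fun i => (hunit _ (hyO i)).1) ?_
    apply (hunit _ _).2.1
    rw [map_prod]
    exact Finset.prod_eq_one fun j _ => hyO j
  obtain ⟨A, g, hdet, hg, hA0, hAs⟩ := exists_unimod d mu hmu
  set Y : Fin (d + 1) → K := fun k => ∏ j, y j ^ A k j with hYdef
  have hYform : ∀ k, Y k = t ^ (∑ j, A k j * mu j) * ∏ j, u j ^ A k j := by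
    intro k
    rw [hYdef]
    simp only
    rw [zpow_sum₀ ht0, ← Finset.prod_mul_distrib]
    refine Finset.prod_congr rfl fun j _ => ?_
    rw [hyt j, mul_zpow, ← zpow_mul, mul_comm (mu j)]
  have huval : ∀ k, O.valuation (∏ j, u j ^ A k j) = 1 := by
    intro k
    rw [map_prod]
    refine Finset.prod_eq_one fun j _ => ?_
    rw [map_zpow₀, hu j, one_zpow]
  set ε : K := ∏ j, u j ^ A 0 j with hε
  have hY0 : Y 0 = t ^ g * ε := by rw [hYform, hA0, zpow_natCast]
  have hYs : ∀ k : Fin d, O.valuation (Y k.succ) = 1 := by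
    intro k
    rw [hYform, hAs k, zpow_zero, one_mul, huval]
  obtain ⟨g, rfl⟩ : ∃ g', g = g' + 1 := ⟨g - 1, by omega⟩
  have hY0v : O.valuation (Y 0) < 1 := by
    rw [hY0, map_mul, map_pow, huval 0, mul_one]
    exact pow_lt_one₀ zero_le htv (Nat.succ_ne_zero g)
  by_cases hP : ∀ P : MvPolynomial (Fin d) ℂ, P ≠ 0 →
      O.valuation (aeval (fun k : Fin d => Y k.succ) P) = 1
  · right
    exact ⟨A, hdet, hY0v, hYs, hP⟩
  left
  -- the form in the new coordinates
  have hYne : ∀ k, Y k ≠ 0 := fun k => Finset.prod_ne_zero_iff.2 fun j _ => zpow_ne_zero _ (hyne j)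
  have hYO : ∀ k, Y k ∈ O := by
    intro k
    refine Fin.cases ?_ (fun k => ?_) k
    · exact (O.valuation_le_one_iff _).1 hY0v.le
    · exact (hunit _ (hYs k)).1
  have hdetO : ((A.det : ℤ) : K) ∈ O ∧ ((A.det : ℤ) : K) * ((A.det : ℤ) : K) = 1 := by
    rcases hdet with h | h <;> rw [h]
    · simp [O.one_mem]
    · simp [O.one_mem]
  have hdL : dL y = ((A.det : ℤ) : K) • dL Y := by
    rw [hF K d.succ y Y A hyne fun i => rfl, smul_smul, hdetO.2, one_smul]
  rw [hdL]
  refine reg_smul ?_ hdetO.1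
  -- polynomials of minimal degree
  have haevO : ∀ P : MvPolynomial (Fin d) ℂ, aeval (fun k : Fin d => Y k.succ) P ∈ O := by
    intro P
    induction P using MvPolynomial.induction_on with
    | C a => rw [aeval_C]; exact hC a
    | add p q hp hq => rw [map_add]; exact O.add_mem _ _ hp hq
    | mul_X p i hp => rw [map_mul, aeval_X]; exact O.mul_mem _ _ hp (hYO _)
  have hex : ∃ n, ∃ P : MvPolynomial (Fin d) ℂ, P ≠ 0 ∧ P.totalDegree = n ∧
      O.valuation (aeval (fun k : Fin d => Y k.succ) P) ≠ 1 := by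
    push Not at hP
    obtain ⟨P, h1, h2⟩ := hP
    exact ⟨_, P, h1, rfl, h2⟩
  obtain ⟨P, hP0, hPd, hPv⟩ := Nat.find_spec hex
  have hmin : ∀ Q : MvPolynomial (Fin d) ℂ, Q ≠ 0 → Q.totalDegree < P.totalDegree →
      O.valuation (aeval (fun k : Fin d => Y k.succ) Q) = 1 := by
    intro Q hQ hlt
    by_contra hcon
    exact Nat.find_min hex (m := Q.totalDegree) (by rw [← hPd]; exact hlt) ⟨Q, hQ, rfl, hcon⟩
  have hPdeg : P.totalDegree ≠ 0 := by
    intro h0
    rw [totalDegree_eq_zero_iff_eq_C] at h0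
    have hc : coeff 0 P ≠ 0 := by
      intro hc
      rw [hc, map_zero] at h0
      exact hP0 h0
    apply hPv
    rw [h0, aeval_C]
    apply le_antisymm ((O.valuation_le_one_iff _).2 (hC _))
    have h1 := (O.valuation_le_one_iff _).2 (hC (coeff 0 P)⁻¹)
    rw [map_inv₀, map_inv₀] at h1
    have h2 : O.valuation (algebraMap ℂ K (coeff 0 P)) ≠ 0 := by
      rw [Ne, map_eq_zero, map_eq_zero]
      exact hc
    exact (inv_le_one₀ (zero_lt_iff.2 h2)).1 h1
  obtain ⟨k, hk⟩ := exists_pderiv_ne P hPdeg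
  have hQv := hmin _ hk (totalDegree_pderiv_lt P k hPdeg)
  set r : K := aeval (fun l : Fin d => Y l.succ) (pderiv k P) with hr
  set q : K := aeval (fun l : Fin d => Y l.succ) P with hq
  have hdW : dW Y = r⁻¹ • dW (Function.update Y k.succ q) := by
    rw [hq, dW_poly, ← hr, smul_smul, inv_mul_cancel₀ (hunit _ hQv).2.2, one_smul]
  have hqO : q ∈ O := haevO P
  have hprod : (∏ j, Y j)⁻¹ = (∏ j : Fin d, Y j.succ)⁻¹ * (Y 0)⁻¹ := by
    rw [Fin.prod_univ_succ, mul_inv, mul_comm]
  have hform : dL Y = ((∏ j : Fin d, Y j.succ)⁻¹ * r⁻¹) •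
      ((Y 0)⁻¹ • dW (Function.update Y k.succ q)) := by
    unfold dL
    rw [hdW, hprod, smul_smul, smul_smul]
    congr 1
    ring
  have hcoef : (∏ j : Fin d, Y j.succ)⁻¹ * r⁻¹ ∈ O := by
    refine O.mul_mem _ _ ((hunit _ ?_).2.1) (hunit _ hQv).2.1
    rw [map_prod]
    exact Finset.prod_eq_one fun j _ => hYs j
  rw [hform]
  refine reg_smul ?_ hcoef
  by_cases hq0 : q = 0
  · have h0 : dW (Function.update Y k.succ q) = 0 := by
      ext D
      rw [dW_apply, hq0]
      apply Matrix.det_eq_zero_of_column_eq_zero k.succ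
      intro i
      rw [Matrix.of_apply, Function.update_self, map_zero]
    rw [h0, smul_zero]
    exact ⟨0, fun _ => 0, fun _ _ => 0, fun i => i.elim0, fun i => i.elim0, by simp⟩
  obtain ⟨b, η, hη, hqe⟩ := hnat q hqO hq0
  obtain ⟨b, rfl⟩ : ∃ b', b = b' + 1 := by
    refine ⟨b - 1, ?_⟩
    rcases Nat.eq_zero_or_pos b with h | h
    · exfalso
      apply hPv
      rw [hqe, h, pow_zero, one_mul, hη]
    · omega
  have hεv : O.valuation ε = 1 := huval 0
  rw [key Y k t ε η q g b ht0 (hunit _ hεv).2.2 hY0 hqe]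
  have hupd : ∀ a c : K, a ∈ O → c ∈ O →
      ∀ i, Function.update (Function.update Y 0 a) k.succ c i ∈ O := by
    intro a c ha hc i
    by_cases h1 : i = k.succ
    · subst h1
      rw [Function.update_self]
      exact hc
    · rw [Function.update_of_ne h1]
      by_cases h2 : i = 0
      · subst h2
        rw [Function.update_self]
        exact ha
      · rw [Function.update_of_ne h2]
        exact hYO i
  have hn : ∀ n : ℕ, (n : K) ∈ O := fun n => natCast_mem O n
  have hεO := hunit _ hεv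
  have hηO := hunit _ hη
  refine reg_add (reg_add ?_ ?_) ?_
  · exact reg_smul (reg_dW (hupd _ _ htO hηO.1)) (O.mul_mem _ _ (hn _) (pow_mem htO _))
  · exact reg_smul (reg_dW (hupd _ _ hεO.1 htO))
      (O.mul_mem _ _ (O.mul_mem _ _ (O.mul_mem _ _ (hn _) (pow_mem htO _)) hηO.1) hεO.2.1)
  · exact reg_smul (reg_dW (hupd _ _ hεO.1 hηO.1)) (O.mul_mem _ _ (pow_mem htO _) hεO.2.1)

end PosGeom.H82
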