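import Pool.Agent.Helper26_ABCT.Ev
import Pool.Agent.Helper93_ABCT.Var

/-!
# TCEN: the centre of a toric valuation is in the boundary (MP_a17fcb_ag)
-/

open MvPolynomial Topology

namespace PosGeom.H82

/-! ### monomial changes of coordinates -/

theorem mono_swap {n : ℕ} {F : Type} [Field F] (A : Matrix (Fin n) (Fin n) ℤ) {x : Fin n → F}
    (hx : ∀ j, x j ≠ 0) (C : Fin n → ℤ) :
    ∏ k, (∏ j, x j ^ A k j) ^ C k = ∏ j, x j ^ (∑ k, C k * A k j) := by
  have h1 : ∀ k, (∏ j, x j ^ A k j) ^ C k = ∏ j, x j ^ (C k * A k j) := by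
    intro k
    rw [← Finset.prod_zpow]
    refine Finset.prod_congr rfl fun j _ => ?_
    rw [← zpow_mul, mul_comm]
  rw [Finset.prod_congr rfl fun k _ => h1 k, Finset.prod_comm]
  refine Finset.prod_congr rfl fun j _ => ?_
  induction (Finset.univ : Finset (Fin n)) using Finset.induction_on with
  | empty => simp
  | insert a s ha ih => rw [Finset.prod_insert ha, Finset.sum_insert ha, zpow_add₀ (hx j), ih]

theorem mono_ne {n : ℕ} {F : Type} [Field F] (A : Matrix (Fin n) (Fin n) ℤ) {x : Fin n → F}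
    (hx : ∀ j, x j ≠ 0) (k : Fin n) : ∏ j, x j ^ A k j ≠ 0 :=
  Finset.prod_ne_zero_iff.mpr fun j _ => zpow_ne_zero _ (hx j)

theorem evN_sum {σ κ : Type} {R : Type} [CommSemiring R] (x : σ → R) (s : Finset κ)
    (p : κ → MvPolynomial σ ℕ) : evN x (∑ k ∈ s, p k) = ∑ k ∈ s, evN x (p k) := by
  unfold evN
  rw [eval₂_sum]

theorem evN_mul {σ : Type} {R : Type} [CommSemiring R] (x : σ → R)
    (p q : MvPolynomial σ ℕ) : evN x (p * q) = evN x p * evN x q := by
  unfold evN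
  rw [eval₂_mul]

theorem evN_mono {n : ℕ} {R : Type} [CommSemiring R] (x : Fin n → R) (ν : Fin n →₀ ℕ) (c : ℕ) :
    evN x (monomial ν c) = c * ∏ j, x j ^ ν j := by
  unfold evN
  rw [eval₂_monomial, Finsupp.prod_fintype _ _ (fun _ => pow_zero _)]
  rfl

theorem evN_eq {n : ℕ} {R : Type} [CommSemiring R] (x : Fin n → R) (p : MvPolynomial (Fin n) ℕ) :
    evN x p = ∑ μ ∈ p.support, ((coeff μ p : ℕ) : R) * ∏ j, x j ^ μ j := by
  conv_lhs => rw [p.as_sum]
  rw [evN_sum]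
  exact Finset.sum_congr rfl fun μ _ => evN_mono x μ _

/-- Laurent polynomials in monomial coordinates -/
theorem lau {ι : Type} [Fintype ι] {n : ℕ} {A : Matrix (Fin n) (Fin n) ℤ}
    (hA : A.det = 1 ∨ A.det = -1) (L : ι → MvPolynomial (Fin n) ℕ) :
    ∃ (m : ℕ) (L'' : ι → MvPolynomial (Fin n) ℕ), ∀ (F : Type) [Field F] (x : Fin n → F),
      (∀ j, x j ≠ 0) → ∀ i, evN (fun k => ∏ j, x j ^ A k j) (L'' i) =
        (∏ k, (∏ j, x j ^ A k j)) ^ m * evN x (L i) := by
  classical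
  have hu : IsUnit A.det := by
    rcases hA with h | h <;> rw [h]
    · exact isUnit_one
    · exact isUnit_one.neg
  have hBA : A⁻¹ * A = 1 := Matrix.nonsing_inv_mul A hu
  let E : (Fin n →₀ ℕ) → Fin n → ℤ := fun μ k => ∑ j, (μ j : ℤ) * A⁻¹ j k
  have hE : ∀ (μ : Fin n →₀ ℕ) (j : Fin n), ∑ k, E μ k * A k j = μ j := by
    intro μ j
    have h1 : ∑ k, E μ k * A k j = ∑ l, (μ l : ℤ) * (A⁻¹ * A) l j := by
      simp only [E, Matrix.mul_apply, Finset.sum_mul, Finset.mul_sum]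
      rw [Finset.sum_comm]
      refine Finset.sum_congr rfl fun l _ => Finset.sum_congr rfl fun k _ => ?_
      ring
    rw [h1, hBA, Finset.sum_eq_single j]
    · simp
    · intro l _ hl
      rw [Matrix.one_apply_ne hl, mul_zero]
    · intro h
      exact absurd (Finset.mem_univ j) h
  let m : ℕ := ∑ i, ∑ μ ∈ (L i).support, ∑ k, (E μ k).natAbs
  have hm : ∀ i, ∀ μ ∈ (L i).support, ∀ k, 0 ≤ E μ k + m := by
    intro i μ hμ k
    have h1 : (E μ k).natAbs ≤ ∑ k, (E μ k).natAbs :=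
      Finset.single_le_sum (f := fun k => (E μ k).natAbs) (fun _ _ => Nat.zero_le _)
        (Finset.mem_univ k)
    have h2 : ∑ k, (E μ k).natAbs ≤ ∑ μ ∈ (L i).support, ∑ k, (E μ k).natAbs :=
      Finset.single_le_sum (f := fun μ => ∑ k, (E μ k).natAbs) (fun _ _ => Nat.zero_le _) hμ
    have h3 : ∑ μ ∈ (L i).support, ∑ k, (E μ k).natAbs ≤ m :=
      Finset.single_le_sum (f := fun i => ∑ μ ∈ (L i).support, ∑ k, (E μ k).natAbs)
        (fun _ _ => Nat.zero_le _) (Finset.mem_univ i)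
    have h4 : (E μ k).natAbs ≤ m := h1.trans (h2.trans h3)
    omega
  refine ⟨m, fun i => ∑ μ ∈ (L i).support,
    monomial (Finsupp.equivFunOnFinite.symm fun k => (E μ k + m).toNat) (coeff μ (L i)), ?_⟩
  intro F _ x hx i
  rw [evN_sum, evN_eq x (L i), Finset.mul_sum]
  refine Finset.sum_congr rfl fun μ hμ => ?_
  rw [evN_mono]
  have h5 : ∏ k, (∏ j, x j ^ A k j) ^ (Finsupp.equivFunOnFinite.symm
      (fun k => (E μ k + m).toNat) : Fin n →₀ ℕ) k =
      (∏ k, (∏ j, x j ^ A k j)) ^ m * ∏ k, (∏ j, x j ^ A k j) ^ E μ k := by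
    rw [← Finset.prod_pow, ← Finset.prod_mul_distrib]
    refine Finset.prod_congr rfl fun k _ => ?_
    have h6 : ((Finsupp.equivFunOnFinite.symm
        (fun k => (E μ k + m).toNat) : Fin n →₀ ℕ) k : ℤ) = E μ k + m := by
      rw [Finsupp.coe_equivFunOnFinite_symm]
      exact Int.toNat_of_nonneg (hm i μ hμ k)
    rw [← zpow_natCast, h6, zpow_add₀ (mono_ne A hx k), zpow_natCast, mul_comm]
  have h7 : ∏ k, (∏ j, x j ^ A k j) ^ E μ k = ∏ j, x j ^ μ j := by
    rw [mono_swap A hx]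
    refine Finset.prod_congr rfl fun j _ => ?_
    rw [hE, zpow_natCast]
  rw [h5, h7]
  ring

/-- factoring out the power of the first variable -/
theorem fac0 {ι : Type} {d : ℕ} (L : ι → MvPolynomial (Fin (d + 1)) ℕ) (h : ∃ i, L i ≠ 0) :
    ∃ (w : ℕ) (R : ι → MvPolynomial (Fin (d + 1)) ℕ) (i₀ : ι) (μ : Fin (d + 1) →₀ ℕ),
      (∀ i, L i = X 0 ^ w * R i) ∧ μ ∈ (R i₀).support ∧ μ 0 = 0 := by
  classical
  have hex : ∃ n, ∃ i, ∃ μ ∈ (L i).support, μ 0 = n := by
    obtain ⟨i, hi⟩ := h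
    obtain ⟨μ, hμ⟩ := MvPolynomial.support_nonempty.2 hi
    exact ⟨μ 0, i, μ, hμ, rfl⟩
  obtain ⟨i₀, μ, hμ, hw⟩ := Nat.find_spec hex
  have hmin : ∀ i, ∀ ν ∈ (L i).support, Nat.find hex ≤ ν 0 := fun i ν hν =>
    Nat.find_min' hex ⟨i, ν, hν, rfl⟩
  generalize Nat.find hex = w at hw hmin
  have hsle : ∀ ν : Fin (d + 1) →₀ ℕ, w ≤ ν 0 → Finsupp.single 0 w ≤ ν := by
    intro ν hν
    rw [Finsupp.single_le_iff]
    exact hν
  have hL : ∀ i, L i = X 0 ^ w * (L i).divMonomial (Finsupp.single 0 w) := by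
    intro i
    have h1 := divMonomial_add_modMonomial (L i) (Finsupp.single 0 w)
    have h2 : (L i).modMonomial (Finsupp.single 0 w) = 0 := by
      ext ν
      rw [coeff_zero]
      by_cases h3 : Finsupp.single 0 w ≤ ν
      · exact coeff_modMonomial_of_le _ h3
      · rw [coeff_modMonomial_of_not_le _ h3]
        by_contra h4
        exact h3 (hsle ν (hmin i ν (mem_support_iff.mpr h4)))
    rw [h2, add_zero] at h1
    rw [X_pow_eq_monomial]
    exact h1.symm
  refine ⟨w, fun i => (L i).divMonomial (Finsupp.single 0 w), i₀, μ - Finsupp.single 0 w, hL,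
    ?_, ?_⟩
  · rw [mem_support_iff, coeff_divMonomial, add_tsub_cancel_of_le (hsle μ hw.ge)]
    exact mem_support_iff.mp hμ
  · rw [Finsupp.tsub_apply, Finsupp.single_eq_same, hw, Nat.sub_self]

/-! ### real points -/

section

variable {ι : Type} [Fintype ι] {d : ℕ}

theorem real_mono {n : ℕ} (N : NCell ι n) (hN : N.Good) (C : Fin n → ℤ) :
    ∃ r : ι → ℤ, (∀ i, i ∉ N.M → r i = 0) ∧
      ∀ (τ : ℝ) (x : Fin n → ℝ), 0 < τ → (∀ j, 0 < x j) →
        ∏ j, x j ^ C j = ∏ i, (τ * evN x (N.L i)) ^ r i := by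
  classical
  choose k hk0 hks hk using hN
  refine ⟨fun i => ∑ j, k j i * C j, fun i hi => ?_, ?_⟩
  · exact Finset.sum_eq_zero fun j _ => by rw [hk0 j i hi, zero_mul]
  intro τ x hτ hx
  have hpos : ∀ i ∈ N.M, 0 < τ * evN x (N.L i) := fun i hi =>
    mul_pos hτ (H26.evN_pos hx hi)
  have h1 : ∀ j, x j = ∏ i, (τ * evN x (N.L i)) ^ k j i := by
    intro j
    have e1 : H26.Ev x (yv n j) (x j) := H26.Ev.var j
    have e2 : H26.Ev x (∏ i, N.LF i ^ k j i) (∏ i, (evN x (N.L i)) ^ k j i) := by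
      apply H26.Ev.prod
      intro i _
      by_cases hi : i ∈ N.M
      · exact (H26.Ev.evN (fun j => H26.Ev.var j) (N.L i)).zpow (H26.evN_pos hx hi).ne' _
      · rw [hk0 j i hi, zpow_zero, zpow_zero]
        exact H26.Ev.one
    rw [← hk j] at e2
    rw [e1.unique e2]
    have h2 : ∏ i, (τ * evN x (N.L i)) ^ k j i =
        (∏ i, τ ^ k j i) * ∏ i, (evN x (N.L i)) ^ k j i := by
      rw [← Finset.prod_mul_distrib]
      exact Finset.prod_congr rfl fun i _ => mul_zpow _ _ _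
    have h3 : ∏ i, τ ^ k j i = τ ^ ∑ i, k j i := by
      induction (Finset.univ : Finset ι) using Finset.induction_on with
      | empty => simp
      | insert a s ha ih =>
        rw [Finset.prod_insert ha, Finset.sum_insert ha, zpow_add₀ hτ.ne', ih]
    rw [h2, h3, hks j, zpow_zero, one_mul]
  have h4 : ∀ j, x j ^ C j = ∏ i, (τ * evN x (N.L i)) ^ (k j i * C j) := by
    intro j
    conv_lhs => rw [h1 j]
    rw [← Finset.prod_zpow]
    exact Finset.prod_congr rfl fun i _ => (zpow_mul _ _ _).symm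
  rw [Finset.prod_congr rfl fun j _ => h4 j, Finset.prod_comm]
  refine Finset.prod_congr rfl fun i _ => ?_
  show _ = (τ * evN x (N.L i)) ^ (∑ j, k j i * C j)
  by_cases hi : i ∈ N.M
  · induction (Finset.univ : Finset (Fin n)) using Finset.induction_on with
    | empty => simp
    | insert a s ha ih =>
      rw [Finset.prod_insert ha, Finset.sum_insert ha, zpow_add₀ (hpos i hi).ne', ih]
  · rw [Finset.prod_eq_one (f := fun j => (τ * evN x (N.L i)) ^ (k j i * C j))
        (fun j _ => by rw [hk0 j i hi, zero_mul, zpow_zero]),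
      Finset.sum_eq_zero (f := fun j => k j i * C j) (fun j _ => by rw [hk0 j i hi, zero_mul]),
      zpow_zero]

variable (N : NCell ι (d + 1)) {A : Matrix (Fin (d + 1)) (Fin (d + 1)) ℤ}
  {w m : ℕ} {R : ι → MvPolynomial (Fin (d + 1)) ℕ} {i₀ : ι} {μ : Fin (d + 1) →₀ ℕ}

omit [Fintype ι] in
theorem real_pt (hA : A.det = 1 ∨ A.det = -1)
    (hR : ∀ (F : Type) [Field F] (x : Fin (d + 1) → F), (∀ j, x j ≠ 0) → ∀ i,
      (∏ j, x j ^ A 0 j) ^ w * evN (fun k => ∏ j, x j ^ A k j) (R i) =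
        (∏ k, (∏ j, x j ^ A k j)) ^ m * evN x (N.L i))
    {c s : ℝ} {t : Fin d → ℝ} (hc : 0 < c) (hs : 0 < s) (ht : ∀ k, 0 < t k) :
    ∃ (τ : ℝ) (x : Fin (d + 1) → ℝ), 0 < τ ∧ (∀ j, 0 < x j) ∧ ∏ j, x j ^ A 0 j = s ∧
      ∀ i, c * evN (Fin.cons s t : Fin (d + 1) → ℝ) (R i) = τ * evN x (N.L i) := by
  have hy : ∀ k, 0 < (Fin.cons s t : Fin (d + 1) → ℝ) k := by
    intro k
    refine Fin.cases ?_ (fun k => ?_) k
    · exact hs
    · exact ht k
  obtain ⟨x, hx, hxy⟩ := H26.mono_inv hA hy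
  have hxy0 : ∏ j, x j ^ A 0 j = s := hxy 0
  have hfun : (fun k => ∏ j, x j ^ A k j) = (Fin.cons s t : Fin (d + 1) → ℝ) := funext hxy
  have hpp : 0 < Finset.univ.prod (Fin.cons s t : Fin (d + 1) → ℝ) :=
    Finset.prod_pos fun k _ => hy k
  refine ⟨c * (Finset.univ.prod (Fin.cons s t : Fin (d + 1) → ℝ) ^ m / s ^ w), x,
    by positivity, hx, hxy0, fun i => ?_⟩
  have h1 := hR ℝ x (fun j => (hx j).ne') i
  rw [hxy0, hfun] at h1
  have hsw : s ^ w ≠ 0 := (pow_pos hs w).ne'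
  have h2 : evN (Fin.cons s t : Fin (d + 1) → ℝ) (R i) =
      Finset.univ.prod (Fin.cons s t : Fin (d + 1) → ℝ) ^ m * evN x (N.L i) / s ^ w := by
    rw [← h1]
    field_simp
  rw [h2]
  ring

theorem bnd_mem (hN : N.Good) (hA : A.det = 1 ∨ A.det = -1)
    (hR : ∀ (F : Type) [Field F] (x : Fin (d + 1) → F), (∀ j, x j ≠ 0) → ∀ i,
      (∏ j, x j ^ A 0 j) ^ w * evN (fun k => ∏ j, x j ^ A k j) (R i) =
        (∏ k, (∏ j, x j ^ A k j)) ^ m * evN x (N.L i))
    (hμ : μ ∈ (R i₀).support) (hμ0 : μ 0 = 0)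
    {c : ℝ} {t : Fin d → ℝ} (hc : 0 < c) (ht : ∀ k, 0 < t k) :
    (fun i => c * evN (Fin.cons 0 t : Fin (d + 1) → ℝ) (R i)) ∈
      {z | z ∈ N.P ∧ z ∉ N.Z ∧ -z ∉ N.Z} := by
  have hpos0 : 0 < c * evN (Fin.cons 0 t : Fin (d + 1) → ℝ) (R i₀) := by
    refine mul_pos hc (H26.evN_pos' ?_ hμ ?_)
    · intro k
      refine Fin.cases ?_ (fun k => ?_) k
      · exact le_refl _
      · exact (ht k).le
    · intro k hk
      revert hk
      refine Fin.cases ?_ (fun k => ?_) k
      · intro hk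
        exact absurd hμ0 (Finsupp.mem_support_iff.mp hk)
      · intro _
        exact ht k
  let z : ℝ → ι → ℝ := fun s i => c * evN (Fin.cons s t : Fin (d + 1) → ℝ) (R i)
  have hzc : Continuous z := by
    refine continuous_pi fun i => continuous_const.mul ?_
    have h1 : Continuous fun s : ℝ => (Fin.cons s t : Fin (d + 1) → ℝ) := by
      refine continuous_pi fun k => ?_
      refine Fin.cases ?_ (fun k => ?_) k
      · exact continuous_id
      · exact continuous_const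
    exact (H26.evN_cont (R i)).comp h1
  have hlim : Filter.Tendsto z (𝓝[>] 0) (𝓝 (z 0)) :=
    (hzc.tendsto 0).mono_left nhdsWithin_le_nhds
  have hpt : ∀ s : ℝ, 0 < s → ∃ (τ : ℝ) (x : Fin (d + 1) → ℝ), 0 < τ ∧ (∀ j, 0 < x j) ∧
      ∏ j, x j ^ A 0 j = s ∧ ∀ i, z s i = τ * evN x (N.L i) := fun s hs =>
    real_pt N hA hR hc hs ht
  have hclo : z 0 ∈ closure N.Z := by
    refine mem_closure_of_tendsto hlim ?_
    filter_upwards [self_mem_nhdsWithin] with s hs
    obtain ⟨τ, x, h1, h2, _, h3⟩ := hpt s hs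
    exact ⟨τ, x, h1, h2, h3⟩
  have hnn : ∀ z' ∈ N.Z, ∀ i, 0 ≤ z' i := by
    rintro z' ⟨τ, x, h1, h2, h3⟩ i
    rw [h3]
    exact mul_nonneg h1.le (H26.evN_nonneg (fun j => (h2 j).le) _)
  show z 0 ∈ {z | z ∈ N.P ∧ z ∉ N.Z ∧ -z ∉ N.Z}
  refine ⟨⟨fun h => ?_, Or.inl hclo⟩, fun h => ?_, fun h => ?_⟩
  · have h1 : z 0 i₀ = 0 := by rw [h]; rfl
    exact hpos0.ne' h1
  · obtain ⟨r, hr0, hr⟩ := real_mono N hN (A 0)
    obtain ⟨τ, x, hτ, hx, hz⟩ := h
    have hzpos : ∀ i ∈ N.M, 0 < z 0 i := by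
      intro i hi
      rw [hz]
      exact mul_pos hτ (H26.evN_pos hx hi)
    have hg : Filter.Tendsto (fun s => ∏ i, (z s i) ^ r i) (𝓝[>] 0) (𝓝 (∏ i, (z 0 i) ^ r i)) := by
      refine tendsto_finsetProd _ fun i _ => ?_
      by_cases hi : i ∈ N.M
      · have h1 : Filter.Tendsto (fun s => z s i) (𝓝[>] 0) (𝓝 (z 0 i)) :=
          (tendsto_pi_nhds.mp hlim) i
        exact h1.zpow₀ _ (Or.inl (hzpos i hi).ne')
      · rw [hr0 i hi]
        simp only [zpow_zero]
        exact tendsto_const_nhds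
    have hg2 : Filter.Tendsto (fun s => ∏ i, (z s i) ^ r i) (𝓝[>] 0) (𝓝 0) := by
      have h1 : Filter.Tendsto (fun s : ℝ => s) (𝓝[>] 0) (𝓝 0) :=
        Filter.tendsto_id.mono_left nhdsWithin_le_nhds
      refine h1.congr' ?_
      filter_upwards [self_mem_nhdsWithin] with s hs
      obtain ⟨τ', x', h1, h2, h3, h4⟩ := hpt s hs
      rw [Finset.prod_congr rfl fun i _ => by rw [h4 i], ← hr τ' x' h1 h2, h3]
    have h5 := tendsto_nhds_unique hg hg2
    have h6 : ∏ i, (z 0 i) ^ r i = ∏ j, x j ^ A 0 j := by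
      rw [Finset.prod_congr rfl fun i _ => by rw [hz i], ← hr τ x hτ hx]
    have h7 : 0 < ∏ j, x j ^ A 0 j := Finset.prod_pos fun j _ => zpow_pos (hx j) _
    rw [← h6, h5] at h7
    exact lt_irrefl _ h7
  · have h1 := hnn _ h i₀
    have h2 : 0 < z 0 i₀ := hpos0
    have h3 : (-z 0) i₀ = - z 0 i₀ := rfl
    rw [h3] at h1
    linarith

end

/-! ### the polynomial identity -/

theorem posC_inf : {x : ℂ | ∃ r : ℝ, 0 < r ∧ x = r}.Infinite := by
  have h1 : (Set.Ioi (0 : ℝ)).Infinite := Set.Ioi_infinite 0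
  have h2 : {x : ℂ | ∃ r : ℝ, 0 < r ∧ x = r} = (fun r : ℝ => (r : ℂ)) '' Set.Ioi 0 := by
    ext x
    constructor
    · rintro ⟨r, hr, rfl⟩
      exact ⟨r, hr, rfl⟩
    · rintro ⟨r, hr, rfl⟩
      exact ⟨r, hr, rfl⟩
  rw [h2]
  exact h1.image (Complex.ofReal_injective.injOn)

/-- components of a polynomial vanishing along a positive ray -/
theorem comp_zero {ι : Type} (F : MvPolynomial ι ℂ) (z : ι → ℂ)
    (h : ∀ c : ℝ, 0 < c → aeval (fun i => (c : ℂ) * z i) F = 0) (n : ℕ) :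
    aeval z (homogeneousComponent n F) = 0 := by
  classical
  let p : Polynomial ℂ := ∑ i ∈ Finset.range (F.totalDegree + 1),
    Polynomial.C (aeval z (homogeneousComponent i F)) * Polynomial.X ^ i
  have hp : p = 0 := by
    refine Polynomial.eq_of_infinite_eval_eq _ _ (posC_inf.mono ?_)
    rintro x ⟨c, hc, rfl⟩
    show p.eval (c : ℂ) = Polynomial.eval (c : ℂ) 0
    rw [Polynomial.eval_zero, ← h c hc, aeval_scale F z c _ (Nat.lt_succ_self _),
      Polynomial.eval_finsetSum]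
    refine Finset.sum_congr rfl fun i _ => ?_
    rw [Polynomial.eval_mul, Polynomial.eval_C, Polynomial.eval_pow, Polynomial.eval_X]
    ring
  by_cases hm : n ∈ Finset.range (F.totalDegree + 1)
  · have h2 : p.coeff n = 0 := by rw [hp, Polynomial.coeff_zero]
    rw [Polynomial.finsetSum_coeff, Finset.sum_eq_single n] at h2
    · rwa [Polynomial.coeff_C_mul, Polynomial.coeff_X_pow, if_pos rfl, mul_one] at h2
    · intro i _ him
      rw [Polynomial.coeff_C_mul, Polynomial.coeff_X_pow, if_neg (Ne.symm him), mul_zero]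
    · intro h; exact absurd hm h
  · rw [Finset.mem_range, not_lt] at hm
    rw [homogeneousComponent_eq_zero _ _ (by omega), map_zero]

theorem poly_zero {d : ℕ} (P : MvPolynomial (Fin d) ℂ)
    (h : ∀ t : Fin d → ℝ, (∀ k, 0 < t k) → aeval (fun k => ((t k : ℝ) : ℂ)) P = 0) : P = 0 := by
  refine MvPolynomial.funext_set (fun _ => {x : ℂ | ∃ r : ℝ, 0 < r ∧ x = r})
    (fun _ => posC_inf) fun x hx => ?_
  have h1 : ∀ k, ∃ r : ℝ, 0 < r ∧ x k = r := fun k => hx k (Set.mem_univ k)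
  choose t ht hxt using h1
  rw [map_zero, ← h t ht, aeval_eq_eval]
  congr 2
  funext k
  exact hxt k

/-! ### valuations -/

section

variable {K : Type} [Field K] [Algebra ℂ K] {d : ℕ} (O : ValuationSubring K) {y : Fin (d + 1) → K}

theorem val_le (h0 : O.valuation (y 0) < 1) (hs : ∀ k : Fin d, O.valuation (y k.succ) = 1)
    (hP : ∀ P : MvPolynomial (Fin d) ℂ, P ≠ 0 →
      O.valuation (aeval (fun k : Fin d => y k.succ) P) = 1) (P : MvPolynomial (Fin (d + 1)) ℂ) :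
    O.valuation (aeval y P) ≤ 1 := by
  rw [ValuationSubring.valuation_le_one_iff]
  induction P using MvPolynomial.induction_on with
  | C c =>
    rw [aeval_C, ← ValuationSubring.valuation_le_one_iff]
    by_cases hc : c = 0
    · rw [hc, map_zero, map_zero]
      exact zero_le
    · have h1 := hP (C c) (by rwa [Ne, C_eq_zero])
      rw [aeval_C] at h1
      exact h1.le
  | add p q hp hq => rw [map_add]; exact O.add_mem _ _ hp hq
  | mul_X p i hp =>
    rw [map_mul, aeval_X]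
    refine O.mul_mem _ _ hp ?_
    rw [← ValuationSubring.valuation_le_one_iff]
    refine Fin.cases ?_ (fun k => ?_) i
    · exact h0.le
    · exact (hs k).le

theorem split0 (y : Fin (d + 1) → K) (P : MvPolynomial (Fin (d + 1)) ℂ) :
    ∃ Q : MvPolynomial (Fin (d + 1)) ℂ, aeval y P =
      aeval (fun k : Fin d => y k.succ)
        (aeval (Fin.cons 0 (fun k => X k) : Fin (d + 1) → MvPolynomial (Fin d) ℂ) P) +
      y 0 * aeval y Q := by
  induction P using MvPolynomial.induction_on with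
  | C c =>
    refine ⟨0, ?_⟩
    rw [aeval_C, aeval_C, map_zero, mul_zero, add_zero, AlgHom.commutes]
  | add p q hp hq =>
    obtain ⟨p', hp⟩ := hp
    obtain ⟨q', hq⟩ := hq
    refine ⟨p' + q', ?_⟩
    rw [map_add, hp, hq, map_add, map_add, map_add]
    ring
  | mul_X p i hp =>
    obtain ⟨p', hp⟩ := hp
    refine Fin.cases ?_ (fun k => ?_) i
    · refine ⟨p, ?_⟩
      rw [map_mul, map_mul, aeval_X, aeval_X, Fin.cons_zero, mul_zero, map_zero, zero_add,
        mul_comm]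
    · refine ⟨p' * X k.succ, ?_⟩
      rw [map_mul, map_mul, aeval_X, aeval_X, Fin.cons_succ, map_mul, map_mul, aeval_X, aeval_X,
        hp]
      ring

theorem val_lt (h0 : O.valuation (y 0) < 1) (hs : ∀ k : Fin d, O.valuation (y k.succ) = 1)
    (hP : ∀ P : MvPolynomial (Fin d) ℂ, P ≠ 0 →
      O.valuation (aeval (fun k : Fin d => y k.succ) P) = 1) (P : MvPolynomial (Fin (d + 1)) ℂ)
    (h : aeval (Fin.cons 0 (fun k => X k) : Fin (d + 1) → MvPolynomial (Fin d) ℂ) P = 0) :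
    O.valuation (aeval y P) < 1 := by
  obtain ⟨Q, hQ⟩ := split0 y P
  rw [hQ, h, map_zero, zero_add, map_mul]
  exact mul_lt_one_of_lt_of_le h0 (val_le O h0 hs hP Q)

theorem val_one (h0 : O.valuation (y 0) < 1) (hs : ∀ k : Fin d, O.valuation (y k.succ) = 1)
    (hP : ∀ P : MvPolynomial (Fin d) ℂ, P ≠ 0 →
      O.valuation (aeval (fun k : Fin d => y k.succ) P) = 1) (P : MvPolynomial (Fin (d + 1)) ℂ)
    (h : aeval (Fin.cons 0 (fun k => X k) : Fin (d + 1) → MvPolynomial (Fin d) ℂ) P ≠ 0) :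
    O.valuation (aeval y P) = 1 := by
  obtain ⟨Q, hQ⟩ := split0 y P
  have h1 := hP _ h
  have h2 : O.valuation (y 0 * aeval y Q) < 1 := by
    rw [map_mul]
    exact mul_lt_one_of_lt_of_le h0 (val_le O h0 hs hP Q)
  rw [hQ, Valuation.map_add_eq_of_lt_left _ (by rw [h1]; exact h2), h1]

end

/-! ### the theorem -/

theorem aeval_hom_smul {σ : Type} {R : Type} [CommRing R] [Algebra ℂ R] (v : σ → R) (c : R)
    {p : MvPolynomial σ ℂ} {n : ℕ} (hp : p.IsHomogeneous n) :
    aeval (fun i => c * v i) p = c ^ n * aeval v p := by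
  rw [aeval_def, eval₂_eq, aeval_def, eval₂_eq, Finset.mul_sum]
  refine Finset.sum_congr rfl fun μ hμ => ?_
  have hm : ∑ i ∈ μ.support, μ i = n := by
    have := hp (mem_support_iff.mp hμ)
    rw [Finsupp.weight_apply, Finsupp.sum] at this
    simpa using this
  have h2 : (∏ i ∈ μ.support, (c * v i) ^ μ i) = c ^ n * ∏ i ∈ μ.support, v i ^ μ i := by
    rw [← hm, ← Finset.prod_pow_eq_pow_sum, ← Finset.prod_mul_distrib]
    exact Finset.prod_congr rfl fun i _ => mul_pow _ _ _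
  rw [h2]
  ring

theorem evN_aeval {σ R : Type} [CommRing R] [Algebra ℂ R] (y : σ → R) (p : MvPolynomial σ ℕ) :
    evN y p = aeval y (map (Nat.castRingHom ℂ) p) := by
  unfold evN
  rw [aeval_def, eval₂_map]
  congr 1
  ext n
  simp

theorem evN_ne_zero {d : ℕ} {p : MvPolynomial (Fin (d + 1)) ℕ} {μ : Fin (d + 1) →₀ ℕ}
    (hμ : μ ∈ p.support) (hμ0 : μ 0 = 0) :
    evN (Fin.cons 0 (fun k => X k) : Fin (d + 1) → MvPolynomial (Fin d) ℂ) p ≠ 0 := by
  intro h
  have h1 := congrArg (aeval (fun _ => (1 : ℂ)) : MvPolynomial (Fin d) ℂ →ₐ[ℂ] ℂ) h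
  rw [map_zero] at h1
  have h2 := H26.evN_map ((aeval (fun _ => (1 : ℂ)) : MvPolynomial (Fin d) ℂ →ₐ[ℂ] ℂ) :
    MvPolynomial (Fin d) ℂ →+* ℂ)
    (Fin.cons 0 (fun k => X k) : Fin (d + 1) → MvPolynomial (Fin d) ℂ) p
  have h3 : (fun i => ((aeval (fun _ => (1 : ℂ)) : MvPolynomial (Fin d) ℂ →ₐ[ℂ] ℂ) :
      MvPolynomial (Fin d) ℂ →+* ℂ)
      ((Fin.cons 0 (fun k => X k) : Fin (d + 1) → MvPolynomial (Fin d) ℂ) i)) =
      fun i => Complex.ofRealHom ((Fin.cons 0 (fun _ => 1) : Fin (d + 1) → ℝ) i) := by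
    funext i
    refine Fin.cases ?_ (fun k => ?_) i
    · simp
    · simp
  rw [h3, ← H26.evN_map] at h2
  have h4 : evN (Fin.cons 0 (fun _ => 1) : Fin (d + 1) → ℝ) p = 0 := by
    apply Complex.ofReal_injective
    rw [Complex.ofReal_zero]
    exact h2.symm.trans h1
  have h5 : 0 < evN (Fin.cons 0 (fun _ => 1) : Fin (d + 1) → ℝ) p := by
    refine H26.evN_pos' ?_ hμ ?_
    · intro k
      refine Fin.cases ?_ (fun k => ?_) k
      · exact le_refl _
      · exact zero_le_one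
    · intro k hk
      revert hk
      refine Fin.cases ?_ (fun k => ?_) k
      · intro hk
        exact absurd hμ0 (Finsupp.mem_support_iff.mp hk)
      · intro _
        exact zero_lt_one
  exact h5.ne' h4

theorem tcen (hS : SpecStmt) (hG : SgenStmt) (hC : CfldStmt) : TcenStmt := by
  intro ι _ d N e hN he O D hND hdom A hA hv0 hvs hvP F hF
  classical
  -- normal form
  obtain ⟨m, L'', hL⟩ := lau hA N.L
  have hL0 : ∃ i, L'' i ≠ 0 := by
    obtain ⟨i, hi⟩ := N.ne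
    refine ⟨i, fun h => ?_⟩
    have h1 := hL ℝ (fun _ => 1) (fun _ => one_ne_zero) i
    rw [h] at h1
    have h2 : evN (fun k => ∏ j, (fun _ : Fin (d + 1) => (1 : ℝ)) j ^ A k j)
        (0 : MvPolynomial (Fin (d + 1)) ℕ) = 0 := by
      unfold evN
      rw [eval₂_zero]
    rw [h2] at h1
    have h3 : 0 < evN (fun _ : Fin (d + 1) => (1 : ℝ)) (N.L i) :=
      H26.evN_pos (fun _ => one_pos) hi
    have h4 : (∏ k, (∏ j, (fun _ : Fin (d + 1) => (1 : ℝ)) j ^ A k j)) = 1 :=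
      Finset.prod_eq_one fun k _ => Finset.prod_eq_one fun j _ => one_zpow _
    rw [h4, one_pow, one_mul] at h1
    exact h3.ne h1
  obtain ⟨w, R, i₀, μ, hLR, hμ, hμ0⟩ := fac0 L'' hL0
  have hR : ∀ (F : Type) [Field F] (x : Fin (d + 1) → F), (∀ j, x j ≠ 0) → ∀ i,
      (∏ j, x j ^ A 0 j) ^ w * evN (fun k => ∏ j, x j ^ A k j) (R i) =
        (∏ k, (∏ j, x j ^ A k j)) ^ m * evN x (N.L i) := by
    intro F _ x hx i
    rw [← hL F x hx i, hLR i, evN_mul]
    congr 1
    unfold evN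
    rw [eval₂_pow, eval₂_X]
  -- the polynomial identity
  have hid : ∀ n, aeval (fun i =>
      evN (Fin.cons 0 (fun k => X k) : Fin (d + 1) → MvPolynomial (Fin d) ℂ) (R i))
      (homogeneousComponent n F) = 0 := by
    intro n
    apply poly_zero
    intro t ht
    have h1 := comp_zero F (fun i =>
      ((evN (Fin.cons 0 t : Fin (d + 1) → ℝ) (R i) : ℝ) : ℂ)) (by
        intro c hc
        have h2 := hF _ (bnd_mem N hN hA hR hμ hμ0 hc ht)
        have h3 : (fun i => ((c * evN (Fin.cons 0 t : Fin (d + 1) → ℝ) (R i) : ℝ) : ℂ)) =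
            fun i => (c : ℂ) * ((evN (Fin.cons 0 t : Fin (d + 1) → ℝ) (R i) : ℝ) : ℂ) := by
          funext i
          rw [Complex.ofReal_mul]
        rw [← h3]
        exact h2) n
    rw [← h1, ← AlgHom.comp_apply, comp_aeval]
    congr 2
    funext i
    have h4 := H26.evN_map ((aeval (fun k => ((t k : ℝ) : ℂ)) : MvPolynomial (Fin d) ℂ →ₐ[ℂ] ℂ) :
      MvPolynomial (Fin d) ℂ →+* ℂ)
      (Fin.cons 0 (fun k => X k) : Fin (d + 1) → MvPolynomial (Fin d) ℂ) (R i)
    have h5 : (fun i => ((aeval (fun k => ((t k : ℝ) : ℂ)) : MvPolynomial (Fin d) ℂ →ₐ[ℂ] ℂ) :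
        MvPolynomial (Fin d) ℂ →+* ℂ)
        ((Fin.cons 0 (fun k => X k) : Fin (d + 1) → MvPolynomial (Fin d) ℂ) i)) =
        fun i => Complex.ofRealHom ((Fin.cons 0 t : Fin (d + 1) → ℝ) i) := by
      funext i
      refine Fin.cases ?_ (fun k => ?_) i
      · simp
      · simp
    rw [h5, ← H26.evN_map] at h4
    exact h4
  -- it suffices to treat forms
  rw [← sum_homogeneousComponent F]
  refine Ideal.sum_mem _ fun n _ => ?_
  have hn := homogeneousComponent_isHomogeneous n F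
  have hidn := hid n
  generalize homogeneousComponent n F = F' at hn hidn
  by_contra hFD
  -- elements
  let y : Fin (d + 1) → N.var.K := N.chA e A
  have hyv : ∀ j, yv (d + 1) j ≠ 0 := by
    intro j h
    have h1 : algebraMap (MvPolynomial (Fin (d + 1)) ℂ) (Fd (d + 1)) (X j) = 0 := h
    have h2 := (IsFractionRing.injective (MvPolynomial (Fin (d + 1)) ℂ) (Fd (d + 1)))
      (h1.trans (map_zero _).symm)
    exact X_ne_zero j h2
  have hey : ∀ k, e (y k) = ∏ j, yv (d + 1) j ^ A k j := by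
    intro k
    show e (∏ j, N.ch e j ^ A k j) = _
    rw [map_prod]
    refine Finset.prod_congr rfl fun j _ => ?_
    rw [map_zpow₀]
    congr 1
    exact e.apply_symm_apply _
  let r : ι → N.var.K := fun i => evN y (R i)
  let Y : Fin (d + 1) → Fd (d + 1) := fun k => ∏ j, yv (d + 1) j ^ A k j
  have hYne : ∀ k, Y k ≠ 0 := fun k => mono_ne A hyv k
  let u : Fd (d + 1) := (∏ k, Y k) ^ m / Y 0 ^ w
  have hu : u ≠ 0 := div_ne_zero (pow_ne_zero _ (Finset.prod_ne_zero_iff.mpr fun k _ => hYne k))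
    (pow_ne_zero _ (hYne 0))
  have her : ∀ i, e (r i) = u * N.LF i := by
    intro i
    have h1 : e (evN y (R i)) = evN Y (R i) := by
      have h2 := H26.evN_map (e : N.var.K →+* Fd (d + 1)) y (R i)
      rw [show (fun i => (e : N.var.K →+* Fd (d + 1)) (y i)) = Y from funext hey] at h2
      exact h2
    rw [show r i = evN y (R i) from rfl, h1]
    have h3 := hR (Fd (d + 1)) (yv (d + 1)) hyv i
    have h4 : Y 0 ^ w * evN Y (R i) = (∏ k, Y k) ^ m * N.LF i := h3
    have h5 : Y 0 ^ w ≠ 0 := pow_ne_zero _ (hYne 0)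
    show evN Y (R i) = (∏ k, Y k) ^ m / Y 0 ^ w * N.LF i
    rw [div_mul_eq_mul_div, ← h4, mul_div_cancel_left₀ _ h5]
  -- f and its valuation
  let PF : MvPolynomial (Fin (d + 1)) ℂ := aeval (fun i => map (Nat.castRingHom ℂ) (R i)) F'
  have hf : aeval y PF = aeval r F' := by
    rw [show PF = aeval (fun i => map (Nat.castRingHom ℂ) (R i)) F' from rfl,
      ← AlgHom.comp_apply, comp_aeval]
    congr 2
    funext i
    exact (evN_aeval y (R i)).symm
  have hvf : O.valuation (aeval r F') < 1 := by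
    rw [← hf]
    refine val_lt O hv0 hvs hvP PF ?_
    refine Eq.trans ?_ hidn
    rw [show PF = aeval (fun i => map (Nat.castRingHom ℂ) (R i)) F' from rfl,
      ← AlgHom.comp_apply, comp_aeval]
    congr 2
    funext i
    exact (evN_aeval (Fin.cons 0 (fun k => X k) : Fin (d + 1) → MvPolynomial (Fin d) ℂ)
      (R i)).symm
  have hvr : O.valuation (r i₀) = 1 := by
    rw [show r i₀ = evN y (R i₀) from rfl, evN_aeval]
    refine val_one O hv0 hvs hvP _ ?_
    rw [← evN_aeval]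
    exact evN_ne_zero hμ hμ0
  have hef : e (aeval r F') = u ^ n * aeval N.LF F' := by
    rw [← aeval_hom_smul N.LF u hn]
    have h1 : (fun i => u * N.LF i) = fun i => e (r i) := funext fun i => (her i).symm
    rw [h1]
    have h2 := comp_aeval (R := ℂ) r (e : N.var.K →ₐ[ℂ] Fd (d + 1))
    have h3 := DFunLike.congr_fun h2 F'
    exact h3
  -- the function g
  have hDgen := (hG ι D).1
  have hDF : aeval D.gen F' ≠ 0 := fun h => hFD ((hDgen F').mp h)
  obtain ⟨g, hg1, hg2⟩ := (hS ι N.var D.Frac D.gen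
    (fun G hGI => (hDgen G).mpr (hND hGI)) (by
      obtain ⟨i, hi⟩ := D.rel
      refine ⟨i, fun h => hi ((hDgen (X i)).mp ?_)⟩
      rw [aeval_X]
      exact h)).2.2.2.2.2.2.1 n (X i₀ ^ n) F' (by
        have h1 := (isHomogeneous_X ℂ i₀).pow n
        rwa [one_mul] at h1) hn hDF
  have hvg : O.valuation g ≤ 1 := (O.valuation_le_one_iff g).mpr (hdom g _ hg2).1
  have hFN : aeval N.LF F' ≠ 0 := by
    intro h
    have h1 := ((hC ι (d + 1) N hN).2.2.2 F' n hn).mp h
    exact hFD (hND h1)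
  have heg : e g * aeval N.LF F' = N.LF i₀ ^ n := by
    have h1 : N.var.SpecTo N.LF g (N.LF i₀ ^ n / aeval N.LF F') := by
      refine ⟨n, X i₀ ^ n, F', ?_, hn, hFN, hg1, ?_⟩
      · have h1 := (isHomogeneous_X ℂ i₀).pow n
        rwa [one_mul] at h1
      · rw [div_mul_cancel₀ _ hFN, map_pow, aeval_X]
    rw [(he _ _).mp h1, div_mul_cancel₀ _ hFN]
  have hfin : g * aeval r F' = r i₀ ^ n := by
    apply e.injective
    rw [map_mul, hef, map_pow, her, mul_pow, ← heg]
    ring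
  have h1 : O.valuation (g * aeval r F') = 1 := by rw [hfin, map_pow, hvr, one_pow]
  have h2 : O.valuation (g * aeval r F') < 1 := by
    rw [map_mul, mul_comm]
    exact mul_lt_one_of_lt_of_le hvf hvg
  exact h2.ne h1

end PosGeom.H82

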