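import Pool.Agent.Helper93_ABCT.StmtK
import Pool.Agent.Helper32_ABCT.Api2
import Pool.Agent.Helper82_ABCT.Tcen

/-!
# UORD: functions vanishing along a facet of a twist have positive order (MP_a17fcb_ag)
-/

open MvPolynomial Topology

namespace PosGeom.H82

open ABCT

/-- the field embedding given by a generic point of the affine cone -/
theorem embF {ι : Type} (V : PVar ι) {L : Type} [Field L] [Algebra ℂ L] (ξ : ι → L)
    (h : ∀ F : MvPolynomial ι ℂ, aeval ξ F = 0 ↔ F ∈ V.I) :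
    ∃ ζ : V.Frac →ₐ[ℂ] L, (∀ i, ζ (V.gen i) = ξ i) ∧
      ∀ F : MvPolynomial ι ℂ, ζ (aeval V.gen F) = aeval ξ F := by
  let ψ : (MvPolynomial ι ℂ ⧸ V.I) →ₐ[ℂ] L := Ideal.Quotient.liftₐ V.I (aeval ξ)
    (fun F hF => (h F).mpr hF)
  have hinj : Function.Injective ψ := by
    rw [injective_iff_map_eq_zero]
    intro q hq
    obtain ⟨F, rfl⟩ := Ideal.Quotient.mk_surjective q
    rw [Ideal.Quotient.eq_zero_iff_mem, ← h F]
    exact hq
  have hg : ∀ i, IsFractionRing.liftAlgHom (K := V.Frac) hinj (V.gen i) = ξ i := by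
    intro i
    unfold PVar.gen
    rw [IsFractionRing.liftAlgHom_apply, IsFractionRing.lift_algebraMap]
    show aeval ξ (X i) = ξ i
    rw [aeval_X]
  refine ⟨IsFractionRing.liftAlgHom hinj, hg, fun F => ?_⟩
  rw [← AlgHom.comp_apply, comp_aeval]
  congr 2
  funext i
  exact hg i

/-- coordinates as polynomials over `ℂ` -/
noncomputable def polC (S : FlatCell) (I : Finset ℕ) : MvPolynomial S.V ℂ :=
  map (Nat.castRingHom ℂ) (S.pol I)

theorem eval₂_castN {σ R : Type} [CommRing R] [Algebra ℂ R] (y : σ → R) (p : MvPolynomial σ ℕ) :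
    aeval y (map (Nat.castRingHom ℂ) p) = eval₂ (Nat.castRingHom R) y p := by
  rw [aeval_def, eval₂_map]
  congr 1
  ext n
  simp

theorem aeval_polC (S : FlatCell) {R : Type} [CommRing R] [Algebra ℂ R] (y : S.V → R)
    (I : Finset ℕ) : aeval y (polC S I) = S.ev y I := eval₂_castN y _

theorem alg_polC (S : FlatCell) (I : Finset ℕ) :
    algebraMap (MvPolynomial S.V ℂ) S.F (polC S I) = S.P I := by
  have h1 : S.P I = aeval S.x (polC S I) := (aeval_polC S S.x I).symm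
  rw [h1]
  have h2 : (IsScalarTower.toAlgHom ℂ (MvPolynomial S.V ℂ) S.F) = aeval S.x := by
    apply MvPolynomial.algHom_ext
    intro v
    rw [aeval_X]
    rfl
  rw [← h2]
  rfl

/-! ### the substitution -/

section

variable {S T T' : FlatCell} (τ : Twist S T) (φ : FacetData T T')

/-- the substitution of the variables of `S` -/
noncomputable def Ysub (v : S.V) : RatFunc T'.F :=
  Sum.elim (fun i => φ.psi (Sum.inl i)) (fun h => τ.gap φ h) v

variable {τ}

theorem L_gap (hτ : τ.Ok) (k : T.G) :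
    aeval (fun h => τ.gap φ h) (τ.L k) = φ.psi (Sum.inr k) := by
  have h1 : (fun h => τ.gap φ h) = fun h =>
      (aeval (fun k : T.G => φ.psi (Sum.inr k)) : MvPolynomial T.G ℤ →ₐ[ℤ] RatFunc T'.F)
        (τ.L' h) := rfl
  rw [h1, ← comp_aeval, AlgHom.comp_apply, hτ.inv', aeval_X]

theorem aeval_castN {σ R : Type} [CommRing R] [Algebra ℤ R] (y : σ → R)
    (p : MvPolynomial σ ℕ) :
    aeval y (MvPolynomial.map (Nat.castRingHom ℤ) p) = eval₂ (Nat.castRingHom R) y p := by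
  rw [aeval_def, eval₂_map]
  congr 1
  ext n
  simp

theorem ev_gap (hτ : τ.Ok) (I : Finset ℕ) :
    S.ev (Ysub τ φ) I = ((τ.ε I : ℤ) : RatFunc T'.F) * φ.P I := by
  have h1 := congrArg (aeval (fun h => τ.gap φ h) : MvPolynomial S.G ℤ →ₐ[ℤ] RatFunc T'.F)
    (hτ.eq I)
  rw [← AlgHom.comp_apply, comp_aeval, map_mul, aeval_castN, aeval_C] at h1
  have h2 : (fun k => (aeval (fun h => τ.gap φ h) : MvPolynomial S.G ℤ →ₐ[ℤ] RatFunc T'.F)
      (τ.L k)) = fun k => φ.psi (Sum.inr k) := funext fun k => L_gap φ hτ k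
  rw [h2, aeval_castN] at h1
  have h3 : (algebraMap ℤ (RatFunc T'.F)) (τ.ε I) = ((τ.ε I : ℤ) : RatFunc T'.F) := by
    simp
  rw [h3] at h1
  have hε : ((τ.ε I : ℤ) : RatFunc T'.F) * ((τ.ε I : ℤ) : RatFunc T'.F) = 1 := by
    rcases hτ.sgn I with h | h <;> rw [h] <;> simp
  unfold FacetData.P
  rw [ev_eq, ev_eq, h1]
  show (∏ i ∈ I, φ.psi (Sum.inl i)) * eval₂ (Nat.castRingHom (RatFunc T'.F))
    (fun h => τ.gap φ h) (S.Δ I) = _
  calc _ = (((τ.ε I : ℤ) : RatFunc T'.F) * ((τ.ε I : ℤ) : RatFunc T'.F)) *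
      ((∏ i ∈ I, φ.psi (Sum.inl i)) * eval₂ (Nat.castRingHom (RatFunc T'.F))
        (fun h => τ.gap φ h) (S.Δ I)) := by rw [hε, one_mul]
    _ = _ := by ring

/-- the leading terms of the coordinates -/
theorem P_lead (hφ : φ.Ok) (hT : T.Wf) (hT' : T'.Wf) (I : Finset ℕ) :
    ∃ R : Polynomial T'.F, φ.P I = sVar T'.F ^ φ.e * RatFunc.C φ.κ *
      algebraMap (Polynomial T'.F) (RatFunc T'.F) (Polynomial.C (T'.P I) + Polynomial.X * R) := by
  by_cases hI : I ∈ T.M
  · obtain ⟨R, hR⟩ := hφ.r2 I hI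
    refine ⟨R, ?_⟩
    rw [hR, map_add, map_mul, RatFunc.algebraMap_C, RatFunc.algebraMap_X]
  · refine ⟨0, ?_⟩
    have h1 : T.Δ I = 0 := by
      by_contra h
      exact hI ((hT.ne I).mp h)
    have h2 : T'.Δ I = 0 := by
      by_contra h
      exact hI (hφ.sub.1 ((hT'.ne I).mp h))
    unfold FacetData.P
    rw [ev_eq, h1, eval₂_zero, mul_zero, P_eq_zero _ _ h2, map_zero, mul_zero, add_zero, map_zero,
      mul_zero]

/-- the leading term of a form in the coordinates -/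
theorem form_lead {ι : Type} (emb : ι → Finset ℕ) (hφ : φ.Ok) (hT : T.Wf) (hT' : T'.Wf) {m : ℕ}
    {A : MvPolynomial ι ℂ} (hA : A.IsHomogeneous m) :
    ∃ R : Polynomial T'.F, R.coeff 0 = aeval (fun i => T'.P (emb i)) A ∧
      aeval (fun i => φ.P (emb i)) A = (sVar T'.F ^ φ.e * RatFunc.C φ.κ) ^ m *
        algebraMap (Polynomial T'.F) (RatFunc T'.F) R := by
  choose R hR using fun i => P_lead φ hφ hT hT' (emb i)
  refine ⟨aeval (fun i => Polynomial.C (T'.P (emb i)) + Polynomial.X * R i) A, ?_, ?_⟩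
  · rw [Polynomial.coeff_zero_eq_eval_zero]
    have h1 := comp_aeval (R := ℂ) (fun i => Polynomial.C (T'.P (emb i)) + Polynomial.X * R i)
      ((Polynomial.aeval (0 : T'.F)).restrictScalars ℂ)
    have h2 := DFunLike.congr_fun h1 A
    rw [AlgHom.comp_apply] at h2
    have h3 : (fun i => ((Polynomial.aeval (0 : T'.F)).restrictScalars ℂ)
        (Polynomial.C (T'.P (emb i)) + Polynomial.X * R i)) = fun i => T'.P (emb i) := by
      funext i
      rw [AlgHom.restrictScalars_apply, Polynomial.coe_aeval_eq_eval]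
      simp
    rw [h3] at h2
    rw [← h2, AlgHom.restrictScalars_apply, Polynomial.coe_aeval_eq_eval]
  · have h1 : (fun i => φ.P (emb i)) = fun i => sVar T'.F ^ φ.e * RatFunc.C φ.κ *
      algebraMap (Polynomial T'.F) (RatFunc T'.F)
        (Polynomial.C (T'.P (emb i)) + Polynomial.X * R i) := funext hR
    rw [h1, aeval_hom_smul _ _ hA]
    congr 1
    have h2 := comp_aeval (R := ℂ) (fun i => Polynomial.C (T'.P (emb i)) + Polynomial.X * R i)
      (IsScalarTower.toAlgHom ℂ (Polynomial T'.F) (RatFunc T'.F))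
    exact (DFunLike.congr_fun h2 A).symm

end

/-! ### the theorem -/

theorem aeval_polys {ι : Type} (S : FlatCell) (emb : ι → Finset ℕ) {R : Type} [CommRing R]
    [Algebra ℂ R] (y : S.V → R) (c : ι → ℤ) (F : MvPolynomial ι ℂ) :
    aeval y (aeval (fun i => ((c i : ℤ) : MvPolynomial S.V ℂ) * polC S (emb i)) F) =
      aeval (fun i => ((c i : ℤ) : R) * S.ev y (emb i)) F := by
  rw [← AlgHom.comp_apply, comp_aeval]
  congr 2
  funext i
  rw [map_mul, map_intCast, aeval_polC]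

theorem aeval_polys' {ι : Type} (S : FlatCell) (emb : ι → Finset ℕ) {R : Type} [CommRing R]
    [Algebra ℂ R] (y : S.V → R) (F : MvPolynomial ι ℂ) :
    aeval y (aeval (fun i => polC S (emb i)) F) = aeval (fun i => S.ev y (emb i)) F := by
  rw [← AlgHom.comp_apply, comp_aeval]
  congr 2
  funext i
  rw [aeval_polC]

theorem alg_eq_aeval (S : FlatCell) (P : MvPolynomial S.V ℂ) :
    algebraMap (MvPolynomial S.V ℂ) S.F P = aeval S.x P := by
  have h2 : (IsScalarTower.toAlgHom ℂ (MvPolynomial S.V ℂ) S.F) = aeval S.x := by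
    apply MvPolynomial.algHom_ext
    intro v
    rw [aeval_X]
    rfl
  rw [← h2]
  rfl

theorem aeval_LL {σ V R : Type} [CommRing R] [Algebra ℂ R] [Algebra ℤ R] (y : V → R) (g : σ → V)
    (L : MvPolynomial σ ℤ) :
    aeval y (aeval (fun h => (X (g h) : MvPolynomial V ℂ)) L) = aeval (fun h => y (g h)) L := by
  induction L using MvPolynomial.induction_on with
  | C n =>
    rw [aeval_C, aeval_C, eq_intCast, eq_intCast, map_intCast]
  | add p q hp hq => rw [map_add, map_add, hp, hq, map_add]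
  | mul_X p i hp => rw [map_mul, map_mul, hp, aeval_X, aeval_X, map_mul, aeval_X]

theorem uord (hG : SgenStmt) (hK : KgenStmt) (hPr : KprpStmt) (hW : UtwiStmt) : UordStmt := by
  intro ι _ emb S T T' hS hT hT' τ hτ φ hφ d N NT NT' b bT bT' a aT aT' hN hNT hNT' t ht n F f g
    hF hf hg hfg
  classical
  have hgS := (hK ι emb S hS (d + 1) N b a hN).1
  obtain ⟨ζ, hζg, hζ⟩ := embF N.var (fun i => S.P (emb i)) hgS
  have hζinj : Function.Injective ζ := ζ.toRingHom.injective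
  -- the function at the facet
  obtain ⟨m, A, B, hA, hB, hB0, hAB1, hAB2⟩ := hfg
  rw [zero_mul] at hAB2
  have hA' : aeval (fun i => T'.P (emb i)) A = 0 :=
    ((hK ι emb T' hT' d NT' bT' aT' hNT').1 A).mpr (((hG ι NT'.var).1 A).mp hAB2.symm)
  have hB' : aeval (fun i => T'.P (emb i)) B ≠ 0 := fun h =>
    hB0 (((hG ι NT'.var).1 B).mpr (((hK ι emb T' hT' d NT' bT' aT' hNT').1 B).mp h))
  -- transport
  obtain ⟨m', A₁, B₁, hA₁, hB₁, hB₁0, h₁, h₂⟩ :=
    (ht (t.symm (f * g)) (((f * g : N.var.K)) : N.var.Frac)).mpr (by rw [t.apply_symm_apply])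
  have hmem : A * B₁ - A₁ * B ∈ NT.var.I := by
    rw [← (hG ι NT.var).1, map_sub, map_mul, map_mul, ← hAB1, ← h₁]
    ring
  have hmem2 := (hgS _).mpr ((hW ι emb S T hS hT τ hτ (d + 1) (d + 1) N NT b bT a aT hN hNT _).mp
    hmem)
  have hsub : ∀ P : MvPolynomial ι ℂ, aeval (fun i => S.P (emb i))
      (aeval (fun i => C ((τ.ε (emb i) : ℤ) : ℂ) * X i) P) =
      aeval (fun i => ((τ.ε (emb i) : ℤ) : S.F) * S.P (emb i)) P := by
    intro P
    rw [← AlgHom.comp_apply, comp_aeval]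
    congr 2
    funext i
    rw [map_mul, aeval_C, aeval_X, map_intCast]
  rw [hsub, map_sub, map_mul, map_mul, sub_eq_zero] at hmem2
  have hζε : ∀ P : MvPolynomial ι ℂ, ζ (aeval (fun i =>
      algebraMap ℂ N.var.Frac ((τ.ε (emb i) : ℤ) : ℂ) * N.var.gen i) P) =
      aeval (fun i => ((τ.ε (emb i) : ℤ) : S.F) * S.P (emb i)) P := by
    intro P
    rw [← AlgHom.comp_apply, comp_aeval]
    congr 2
    funext i
    rw [map_mul, hζg, map_intCast, map_intCast]
  have h₃ := congrArg ζ h₂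
  rw [map_mul, hζε, hζε] at h₃
  have hB₁' : aeval (fun i => ((τ.ε (emb i) : ℤ) : S.F) * S.P (emb i)) B₁ ≠ 0 := by
    rw [← hζε]
    intro h
    exact hB₁0 (hζinj (h.trans (map_zero ζ).symm))
  have hkey : ζ ((f * g : N.var.K) : N.var.Frac) *
      aeval (fun i => ((τ.ε (emb i) : ℤ) : S.F) * S.P (emb i)) B =
      aeval (fun i => ((τ.ε (emb i) : ℤ) : S.F) * S.P (emb i)) A := by
    apply mul_right_cancel₀ hB₁'
    rw [hmem2, ← h₃]
    ring
  -- the values of f and g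
  have hfin : N.M.Finite := Set.toFinite _
  rw [finprod_mem_eq_finite_toFinset_prod _ hfin] at hf
  have hζf : ζ (f : N.var.Frac) * ∏ i ∈ hfin.toFinset, S.P (emb i) ^ n =
      aeval (fun i => S.P (emb i)) F := by
    rw [← hζ, ← hf, map_mul, map_prod]
    congr 1
    exact Finset.prod_congr rfl fun i _ => by rw [map_pow, hζg]
  have := hτ.fin
  have := hτ.fin'
  have := Fintype.ofFinite S.G
  have := Fintype.ofFinite T.G
  rw [finprod_eq_prod_of_fintype, finprod_eq_prod_of_fintype] at hg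
  have hD2 : ∏ h : S.G, S.x (Sum.inr h) ≠ 0 :=
    Finset.prod_ne_zero_iff.mpr fun h _ => xx_ne_zero _
  have hζgv : ζ (g : N.var.Frac) * ∏ h : S.G, S.x (Sum.inr h) =
      ∏ k : T.G, aeval (fun h => S.x (Sum.inr h)) (τ.L k) := by
    obtain ⟨m₂, G₁, G₂, _, _, hG20, hg1, hg2⟩ := hg
    have h5 := congrArg ζ hg1
    rw [map_mul, hζ, hζ, ← hg2] at h5
    rw [mul_right_cancel₀ hG20 h5, div_mul_cancel₀ _ hD2]
  -- the identity in the field
  have hid : aeval (fun i => S.P (emb i)) F * (∏ k : T.G, aeval (fun h => S.x (Sum.inr h)) (τ.L k)) *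
      aeval (fun i => ((τ.ε (emb i) : ℤ) : S.F) * S.P (emb i)) B =
      aeval (fun i => ((τ.ε (emb i) : ℤ) : S.F) * S.P (emb i)) A *
        (∏ i ∈ hfin.toFinset, S.P (emb i) ^ n) * ∏ h : S.G, S.x (Sum.inr h) := by
    rw [← hkey, ← hζf, ← hζgv]
    push_cast
    rw [map_mul]
    ring
  -- the identity of polynomials
  have hpol : aeval (fun i => polC S (emb i)) F *
      (∏ k : T.G, aeval (fun h => (X (Sum.inr h) : MvPolynomial S.V ℂ)) (τ.L k)) *
      aeval (fun i => ((τ.ε (emb i) : ℤ) : MvPolynomial S.V ℂ) * polC S (emb i)) B =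
      aeval (fun i => ((τ.ε (emb i) : ℤ) : MvPolynomial S.V ℂ) * polC S (emb i)) A *
        (∏ i ∈ hfin.toFinset, polC S (emb i) ^ n) * ∏ h : S.G, X (Sum.inr h) := by
    apply IsFractionRing.injective (MvPolynomial S.V ℂ) S.F
    rw [alg_eq_aeval, alg_eq_aeval]
    simp only [map_mul, map_prod, map_pow, aeval_polys, aeval_polys', aeval_LL, aeval_X,
      aeval_polC]
    exact hid
  -- substitution
  have hsubst := congrArg (aeval (Ysub τ φ)) hpol
  simp only [map_mul, map_prod, map_pow, aeval_polys, aeval_polys', aeval_LL, aeval_X,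
      aeval_polC] at hsubst
  have hY1 : ∀ k : T.G, aeval (fun h => Ysub τ φ (Sum.inr h)) (τ.L k) = φ.psi (Sum.inr k) :=
    fun k => L_gap φ hτ k
  have hY2 : ∀ h : S.G, Ysub τ φ (Sum.inr h) = τ.gap φ h := fun h => rfl
  have hε : ∀ I, ((τ.ε I : ℤ) : RatFunc T'.F) * ((τ.ε I : ℤ) : RatFunc T'.F) = 1 := by
    intro I
    rcases hτ.sgn I with h | h <;> rw [h] <;> simp
  have hY3 : (fun i => ((τ.ε (emb i) : ℤ) : RatFunc T'.F) * S.ev (Ysub τ φ) (emb i)) =
      fun i => φ.P (emb i) := by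
    funext i
    rw [ev_gap φ hτ, ← mul_assoc, hε, one_mul]
  have hY4 : (fun i => S.ev (Ysub τ φ) (emb i)) =
      fun i => ((τ.ε (emb i) : ℤ) : RatFunc T'.F) * φ.P (emb i) := by
    funext i
    exact ev_gap φ hτ (emb i)
  rw [hY3, hY4, Finset.prod_congr rfl fun k _ => hY1 k, Finset.prod_congr rfl fun h _ => hY2 h]
    at hsubst
  -- the product of the coordinates
  have hprod : ∏ i ∈ hfin.toFinset, S.ev (Ysub τ φ) (emb i) ^ n =
      (∏ i ∈ hfin.toFinset, ((τ.ε (emb i) : ℤ) : RatFunc T'.F)) ^ n * ∏ I ∈ S.M, φ.P I ^ n := by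
    have h6 : ∏ I ∈ S.M, φ.P I ^ n = ∏ i ∈ hfin.toFinset, φ.P (emb i) ^ n := by
      have hM := (hPr ι emb S hS (d + 1) N b a hN).2.2
      symm
      refine Finset.prod_bij (fun i _ => emb i) ?_ ?_ ?_ ?_
      · intro i hi
        rw [Set.Finite.mem_toFinset, hM] at hi
        exact hi
      · intro i _ j _ hij
        exact hS.inj hij
      · intro I hI
        obtain ⟨i, rfl⟩ := hS.sub I hI
        refine ⟨i, ?_, rfl⟩
        rw [Set.Finite.mem_toFinset, hM]
        exact hI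
      · intro i _
        rfl
    rw [h6, ← Finset.prod_pow, ← Finset.prod_mul_distrib]
    refine Finset.prod_congr rfl fun i _ => ?_
    rw [ev_gap φ hτ, mul_pow]
  rw [hprod] at hsubst
  -- the leading terms
  obtain ⟨RA, hRA0, hRA⟩ := form_lead φ emb hφ hT.wf hT'.wf hA
  obtain ⟨RB, hRB0, hRB⟩ := form_lead φ emb hφ hT.wf hT'.wf hB
  rw [hA'] at hRA0
  have hκ : φ.κ ≠ 0 := ABCT.PosF.ne_zero hφ.kpos
  have hs : (sVar T'.F ^ φ.e * RatFunc.C φ.κ) ^ m ≠ 0 := by
    refine pow_ne_zero _ (mul_ne_zero (zpow_ne_zero _ RatFunc.X_ne_zero) ?_)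
    rwa [Ne, map_eq_zero]
  have hRBne : algebraMap (Polynomial T'.F) (RatFunc T'.F) RB ≠ 0 := by
    intro h
    have h7 : RB = 0 := (IsFractionRing.injective (Polynomial T'.F) (RatFunc T'.F))
      (h.trans (map_zero _).symm)
    rw [h7, Polynomial.coeff_zero] at hRB0
    exact hB' hRB0.symm
  obtain ⟨RA', hRA'⟩ := Polynomial.X_dvd_iff.mpr hRA0
  -- the sign
  obtain ⟨σ, hσ⟩ : ∃ σ : ℤ, (∏ i ∈ hfin.toFinset, ((τ.ε (emb i) : ℤ) : RatFunc T'.F)) ^ n =
      ((σ : ℤ) : RatFunc T'.F) := ⟨(∏ i ∈ hfin.toFinset, τ.ε (emb i)) ^ n, by push_cast; rfl⟩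
  rw [hσ, hRA, hRB] at hsubst
  -- conclusion
  unfold Twist.fg
  rw [aeval_rename, finprod_eq_prod_of_fintype, finprod_eq_prod_of_fintype]
  have h8 : (fun I => ((τ.ε I : ℤ) : RatFunc T'.F) * φ.P I) ∘ emb =
      fun i => ((τ.ε (emb i) : ℤ) : RatFunc T'.F) * φ.P (emb i) := rfl
  rw [h8]
  generalize aeval (fun i => ((τ.ε (emb i) : ℤ) : RatFunc T'.F) * φ.P (emb i)) F = Fε at hsubst ⊢
  generalize ∏ I ∈ S.M, φ.P I ^ n = D₁ at hsubst ⊢
  generalize ∏ h : S.G, τ.gap φ h = D₂ at hsubst ⊢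
  generalize ∏ k : T.G, φ.psi (Sum.inr k) = Ψ at hsubst ⊢
  generalize (sVar T'.F ^ φ.e * RatFunc.C φ.κ) ^ m = u at hsubst hs
  by_cases hD₁ : D₁ = 0
  · exact ⟨0, 1, by simp, by rw [hD₁]; simp⟩
  by_cases hD₂ : D₂ = 0
  · exact ⟨0, 1, by simp, by rw [hD₂]; simp⟩
  refine ⟨(σ : Polynomial T'.F) * RA', RB, by rw [hRB0]; exact hB', ?_⟩
  rw [zpow_one, map_mul, map_intCast, div_mul_div_comm, mul_div_assoc', div_eq_div_iff
    (mul_ne_zero hD₁ hD₂) hRBne]
  apply mul_left_cancel₀ hs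
  rw [hRA', map_mul, RatFunc.algebraMap_X] at hsubst
  linear_combination hsubst

end PosGeom.H82
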